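import Pool.Agent.Work.MP_d78dd4_lc.BBU

set_option autoImplicit false

/-!
# Increasing unions of Borel bounded relations are not uniformly universal for every generating sequence

The union of an increasing sequence of countable Borel equivalence relations `E n` has a generating sequence
with respect to which it is uniformly universal only if some `E n` is universal and not Borel bounded.  Hence,
if Q1 is true, a universal countable Borel equivalence relation is no increasing union of Borel bounded ones.
-/

namespace Pool.Agent.Results.MP_d78dd4_lc.BoundedRelations

open Pool.Agent.Work.MP_d78dd4_lc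

theorem result : ∀ (X : Type) [MeasurableSpace X] [StandardBorelSpace X] (E : ℕ → X → X → Prop),
    (∀ n, IsCBER (E n)) → (∀ n x y, E n x y → E (n + 1) x y) →
      ∃ θ : GenSeq X, (∀ x y, θ.Rel x y ↔ ∃ n, E n x y) ∧
        (UniformlyUniversal θ → ∃ n, Universal (E n) ∧ ¬ BorelBounded (E n)) :=
  fun _ _ _ _ hE hE1 => exists_union_seq hE hE1

end Pool.Agent.Results.MP_d78dd4_lc.BoundedRelations
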