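import Pool.Agent.Work.MP_d78dd4_lc.Label

/-! # Equivalent forms of the uniform universality conjecture

All definitions are in `Pool/Agent/Work/MP_d78dd4_lc/Defs.lean`.

* `Q1`: every universal countable Borel equivalence relation is uniformly universal with respect to every
  generating sequence;
* `Q1Two`: the same for the generating sequences which consist of the words in one Borel automorphism and
  one partial Borel involution;
* `TwoLabels`: for every Borel action of the free group on two generators with universal orbit relation and
  every Borel labelling by two labels there is an equivariant Borel reduction of the shift (for a
  substitution of the generators by words) all of whose paths have constant label patterns;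
* `ShiftLabels`: the same for the shift and labellings by natural numbers;
* `Q1Shift`: Q1 for the generating sequences of the orbit relation of the shift;
* `HomStatement`: every Borel homomorphism from the shift to a relation given by a generating sequence
  becomes uniform after composition with a Borel reduction of the shift to itself. -/

namespace Pool.Agent.Results.MP_d78dd4_lc.LabelNormalForm

open Pool.Agent.Work.MP_d78dd4_lc

theorem result : List.TFAE [Q1, Q1Two, TwoLabels, ShiftLabels, Q1Shift, HomStatement] :=
  equivalences

end Pool.Agent.Results.MP_d78dd4_lc.LabelNormalForm
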