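import Pool.Agent.Work.MP_d78dd4_lc.Crit

set_option autoImplicit false

/-!
# Uniformly universal presentations contain free actions of the free group with two generators
-/

namespace Pool.Agent.Results.MP_d78dd4_lc.LocalFreeGroup

open Pool.Agent.Work.MP_d78dd4_lc MeasureTheory

/-- (1) If `R_φ` is uniformly universal with respect to the generating sequence `φ`, then there are a
Borel set `Y`, a free action `a` of `F_2` on `Y` and an invariant Borel probability measure `μ` with
`μ Y = 1` such that the restriction of `R_φ` to `Y` is the orbit equivalence relation of the action and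
every group element acts on `Y` as a single member of `φ` (and its inverse as a single member):
`y R_φ (γ y)` via one pair `u γ` for all `y ∈ Y`.
(2) If for every member `φ_n` and every point `x` the sequence `x, φ_n x, φ_n (φ_n x), ...` stops or
repeats a value, then `R_φ` is not uniformly universal with respect to `φ`. -/
theorem result :
    (∀ (X : Type) [MeasurableSpace X] [StandardBorelSpace X] (φ : GenSeq X),
      UniformlyUniversal φ →
      ∃ (Y : Set X) (a : FreeGroup Bool → X → X) (u : FreeGroup Bool → ℕ × ℕ) (μ : Measure X),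
        MeasurableSet Y ∧ FreeAction Y a ∧ (∀ γ, ∀ y ∈ Y, φ.Via (u γ) y (a γ y)) ∧
        (∀ y ∈ Y, ∀ z ∈ Y, φ.Rel y z ↔ ∃ γ, a γ y = z) ∧
        IsProbabilityMeasure μ ∧ μ Y = 1 ∧
        ∀ γ B, MeasurableSet B → μ {y | y ∈ Y ∧ a γ y ∈ B} = μ B) ∧
    (∀ (X : Type) [MeasurableSpace X] [StandardBorelSpace X] (φ : GenSeq X),
      FiniteForward φ → ¬ UniformlyUniversal φ) :=
  ⟨fun _ _ _ φ h => exists_freeAction φ h, fun _ _ _ φ h => not_uniformlyUniversal φ h⟩

end Pool.Agent.Results.MP_d78dd4_lc.LocalFreeGroup
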