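import Pool.Agent.Work.MP_d78dd4_lc.MU.Main

set_option autoImplicit false

/-!
# The measure version of the uniform universality conjecture is false

Among the relations which have a generating sequence with finite forward orbits there is a largest one.  It
is measure universal, but it has no uniform reductions of the required kind even on sets of measure one.
-/

namespace Pool.Agent.Results.MP_d78dd4_lc.MeasureVersion

open Pool.Agent.Work.MP_d78dd4_lc

/-- There are a standard Borel space `X` and a generating sequence `φ` on `X` such that
* all members of `φ` have finite forward orbits, and every relation with such a generating sequence
  is Borel reducible to `φ.Rel`;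
* `φ.Rel` is measure universal: every countable Borel equivalence relation is Borel reducible to it on an
  invariant Borel set of measure one, for every Borel probability measure (and for all measures of a Borel
  family at the same time);
* it is not measure universal in the uniform sense with respect to `φ`. -/
theorem result :
    ∃ (X : Type) (_ : MeasurableSpace X) (_ : StandardBorelSpace X) (φ : GenSeq X),
      FiniteForward φ ∧
      (∀ (Y : Type) [MeasurableSpace Y] [StandardBorelSpace Y] (θ : GenSeq Y), FiniteForward θ →
        ∃ f : Y → X, BorelRed θ.Rel φ.Rel f) ∧
      MeasUniversal φ.Rel ∧ ¬ UnifMeasUniversal φ :=
  measure_version

end Pool.Agent.Results.MP_d78dd4_lc.MeasureVersion
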